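import Pool.Agent.SZT.StmtsB

/-!
# Row RAT of the squad SZT (the centre is rational modulo `η`)
-/

set_option autoImplicit false

namespace Pool.Agent.SZT.H60

open Polynomial

variable {L : Type} [NormedField L] [IsUltrametricDist L]

theorem nadd {x y : L} {c : ℝ} (hx : ‖x‖ ≤ c) (hy : ‖y‖ ≤ c) : ‖x + y‖ ≤ c :=
  (IsUltrametricDist.norm_add_le_max x y).trans (max_le hx hy)

theorem nsub {x y : L} {c : ℝ} (hx : ‖x‖ ≤ c) (hy : ‖y‖ ≤ c) : ‖x - y‖ ≤ c := by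
  rw [sub_eq_add_neg]
  exact nadd hx (by rwa [norm_neg])

/-- one Newton step -/
theorem newton {K : Type} [Field K] (φ : K →+* L) (f : K[X]) (θ : Fin 5 → L)
    (hN : B.Node (f.map φ) θ) (hη0 : B.eta θ ≠ 0) (hη1 : ‖B.eta θ‖ < 1) (he1 : ‖B.ctr θ‖ ≤ 1)
    (hH : ∀ z : L, ‖z‖ < 1 → ‖(B.hh θ).eval z‖ = 1) (u : K) (hu : ‖φ u - B.ctr θ‖ < 1) :
    ∃ u' : K, ‖φ u' - B.ctr θ‖ ≤ max (‖φ u - B.ctr θ‖ ^ 2) ‖B.eta θ‖ := by
  have h2 : (2 : L) ≠ 0 := by
    intro h
    have := hN.two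
    rw [h, norm_zero] at this
    exact zero_ne_one this
  have hs : θ 0 + θ 1 = 2 * B.ctr θ := by
    unfold B.ctr
    field_simp
  have hp : θ 0 * θ 1 = B.ctr θ ^ 2 - B.eta θ := by
    unfold B.ctr B.eta
    field_simp
    ring
  have hf : f.map φ = ((X - C (B.ctr θ)) ^ 2 - C (B.eta θ)) *
      ((X - C (θ 2)) * (X - C (θ 3)) * (X - C (θ 4))) := by
    have h3 : (X - C (θ 0)) * (X - C (θ 1)) = (X - C (B.ctr θ)) ^ 2 - C (B.eta θ) := by
      have h4 : (X - C (θ 0)) * (X - C (θ 1)) = X ^ 2 - C (θ 0 + θ 1) * X + C (θ 0 * θ 1) := by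
        rw [C_add, C_mul]
        ring
      rw [h4, hs, hp, C_mul, C_sub, C_pow]
      have h5 : (C (2 : L) : L[X]) = 2 := by rw [map_ofNat]
      rw [h5]
      ring
    rw [hN.fac, Fin.prod_univ_five, h3]
    ring
  set a : L := φ u with ha
  set e : L := B.ctr θ with he
  set η : L := B.eta θ with hη
  have hG : (B.hh θ).eval (a - e) = (a - θ 2) * (a - θ 3) * (a - θ 4) := by
    unfold B.hh
    simp only [eval_mul, eval_sub, eval_X, eval_C]
    rw [← he]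
    ring
  have hG1 : ‖(a - θ 2) * (a - θ 3) * (a - θ 4)‖ = 1 := by rw [← hG]; exact hH _ hu
  have hF1 : φ ((derivative f).eval u) = 2 * (a - e) * ((a - θ 2) * (a - θ 3) * (a - θ 4)) +
      ((a - e) ^ 2 - η) * ((a - θ 3) * (a - θ 4) + (a - θ 2) * (a - θ 4) + (a - θ 2) * (a - θ 3)) := by
    rw [← eval_map_apply, ← derivative_map, hf, ← ha, pow_two (X - C e)]
    simp only [derivative_mul, derivative_sub, derivative_add, derivative_X, derivative_C,
      derivative_one, eval_mul, eval_add, eval_sub, eval_X, eval_C, eval_one, eval_zero, sub_zero,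
      mul_one, one_mul, mul_zero, zero_mul, add_zero, zero_add]
    ring
  have hF2 : φ ((derivative (derivative f)).eval u) = 2 * ((a - θ 2) * (a - θ 3) * (a - θ 4)) +
      (2 * 2 * (a - e) * ((a - θ 3) * (a - θ 4) + (a - θ 2) * (a - θ 4) + (a - θ 2) * (a - θ 3)) +
      ((a - e) ^ 2 - η) * (2 * ((a - θ 2) + (a - θ 3) + (a - θ 4)))) := by
    rw [← eval_map_apply, ← derivative_map, ← derivative_map, hf, ← ha, pow_two (X - C e)]
    simp only [derivative_mul, derivative_sub, derivative_add, derivative_X, derivative_C,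
      derivative_one, eval_mul, eval_add, eval_sub, eval_X, eval_C, eval_one, eval_zero, sub_zero,
      mul_one, one_mul, mul_zero, zero_mul, add_zero, zero_add, derivative_zero]
    ring
  have ha1 : ‖a‖ ≤ 1 := by
    have : a = (a - e) + e := by ring
    rw [this]
    exact nadd hu.le he1
  have hA : ∀ i, ‖a - θ i‖ ≤ 1 := fun i => nsub ha1 (hN.int i)
  have hmul : ∀ i j, ‖(a - θ i) * (a - θ j)‖ ≤ 1 := fun i j => by
    rw [norm_mul]
    exact mul_le_one₀ (hA i) (norm_nonneg _) (hA j)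
  set g1 : L := (a - θ 3) * (a - θ 4) + (a - θ 2) * (a - θ 4) + (a - θ 2) * (a - θ 3) with hg1
  have hg1n : ‖g1‖ ≤ 1 := nadd (nadd (hmul 3 4) (hmul 2 4)) (hmul 2 3)
  set g2 : L := 2 * ((a - θ 2) + (a - θ 3) + (a - θ 4)) with hg2
  have hg2n : ‖g2‖ ≤ 1 := by
    rw [hg2, norm_mul, hN.two, one_mul]
    exact nadd (nadd (hA 2) (hA 3)) (hA 4)
  set g0 : L := (a - θ 2) * (a - θ 3) * (a - θ 4) with hg0
  set d : L := a - e with hd
  have hdn : ‖d‖ < 1 := hu
  have hq : ‖d ^ 2 - η‖ ≤ max (‖d‖ ^ 2) ‖η‖ := by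
    rw [← norm_pow]
    exact nsub (le_max_left _ _) (le_max_right _ _)
  have hq1 : max (‖d‖ ^ 2) ‖η‖ < 1 := by
    refine max_lt ?_ hη1
    exact pow_lt_one₀ (norm_nonneg _) hdn (by norm_num)
  have h22 : ‖(2 * 2 * d * g1 : L)‖ ≤ ‖d‖ := by
    rw [norm_mul, norm_mul, norm_mul, hN.two, one_mul, one_mul]
    exact mul_le_of_le_one_right (norm_nonneg _) hg1n
  have hqg2 : ‖(d ^ 2 - η) * g2‖ ≤ max (‖d‖ ^ 2) ‖η‖ := by
    rw [norm_mul]
    exact (mul_le_of_le_one_right (norm_nonneg _) hg2n).trans hq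
  have hqg1 : ‖(d ^ 2 - η) * g1‖ ≤ max (‖d‖ ^ 2) ‖η‖ := by
    rw [norm_mul]
    exact (mul_le_of_le_one_right (norm_nonneg _) hg1n).trans hq
  have hr : ‖2 * 2 * d * g1 + (d ^ 2 - η) * g2‖ < 1 :=
    lt_of_le_of_lt (IsUltrametricDist.norm_add_le_max _ _)
      (max_lt (lt_of_le_of_lt h22 hdn) (lt_of_le_of_lt hqg2 hq1))
  have h2g : ‖2 * g0‖ = 1 := by rw [norm_mul, hN.two, hG1, one_mul]
  have hF2n : ‖φ ((derivative (derivative f)).eval u)‖ = 1 := by
    rw [hF2, IsUltrametricDist.norm_add_eq_max_of_norm_ne_norm (by rw [h2g]; exact hr.ne'), h2g]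
    exact max_eq_left hr.le
  have hF20 : φ ((derivative (derivative f)).eval u) ≠ 0 := by
    intro h
    rw [h, norm_zero] at hF2n
    exact zero_ne_one hF2n
  refine ⟨u - (derivative f).eval u / (derivative (derivative f)).eval u, ?_⟩
  have hstep : φ (u - (derivative f).eval u / (derivative (derivative f)).eval u) - e =
      (2 * 2 * d * g1 * d + (d ^ 2 - η) * g2 * d - (d ^ 2 - η) * g1) /
        φ ((derivative (derivative f)).eval u) := by
    rw [map_sub, map_div₀, eq_div_iff hF20, hF1, ← ha]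
    have h6 : (a - (2 * d * g0 + (d ^ 2 - η) * g1) / φ ((derivative (derivative f)).eval u) - e) *
        φ ((derivative (derivative f)).eval u) =
        d * φ ((derivative (derivative f)).eval u) - (2 * d * g0 + (d ^ 2 - η) * g1) := by
      rw [sub_mul, sub_mul, div_mul_cancel₀ _ hF20, hd]
      ring
    rw [h6, hF2]
    ring
  rw [hstep, norm_div, hF2n, div_one]
  have hb1 : ‖2 * 2 * d * g1 * d‖ ≤ max (‖d‖ ^ 2) ‖η‖ := by
    rw [norm_mul]
    refine le_trans ?_ (le_max_left _ _)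
    rw [pow_two]
    exact mul_le_mul_of_nonneg_right h22 (norm_nonneg _)
  have hb2 : ‖(d ^ 2 - η) * g2 * d‖ ≤ max (‖d‖ ^ 2) ‖η‖ := by
    rw [norm_mul]
    exact (mul_le_of_le_one_right (norm_nonneg _) hdn.le).trans hqg2
  exact nsub (nadd hb1 hb2) hqg1

/-- **Row RAT** -/
theorem rat (nod : B.NodStmt) : B.RatStmt := by
  intro K L _ _ _ φ f θ e₀ hN he₀
  obtain ⟨⟨hη0, hη1, he1⟩, ⟨-, -, hH⟩, -⟩ := nod L (f.map φ) θ hN
  have key : ∀ n : ℕ, ∃ u : K, ‖φ u - B.ctr θ‖ ≤ max (‖φ e₀ - B.ctr θ‖ ^ (n + 1)) ‖B.eta θ‖ := by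
    intro n
    induction n with
    | zero => exact ⟨e₀, by rw [zero_add, pow_one]; exact le_max_left _ _⟩
    | succ n ih =>
      obtain ⟨u, hu⟩ := ih
      have hlt : max (‖φ e₀ - B.ctr θ‖ ^ (n + 1)) ‖B.eta θ‖ < 1 :=
        max_lt (pow_lt_one₀ (norm_nonneg _) he₀ (Nat.succ_ne_zero n)) hη1
      obtain ⟨u', hu'⟩ := newton φ f θ hN hη0 hη1 he1 hH u (lt_of_le_of_lt hu hlt)
      refine ⟨u', hu'.trans (max_le ?_ (le_max_right _ _))⟩
      rcases le_total (‖φ e₀ - B.ctr θ‖ ^ (n + 1)) ‖B.eta θ‖ with h | h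
      · rw [max_eq_right h] at hu
        refine le_trans ?_ (le_max_right _ _)
        calc ‖φ u - B.ctr θ‖ ^ 2 ≤ ‖B.eta θ‖ ^ 2 := pow_le_pow_left₀ (norm_nonneg _) hu 2
          _ ≤ ‖B.eta θ‖ := by
            rw [pow_two]
            exact mul_le_of_le_one_left (norm_nonneg _) hη1.le
      · rw [max_eq_left h] at hu
        refine le_trans ?_ (le_max_left _ _)
        calc ‖φ u - B.ctr θ‖ ^ 2 ≤ (‖φ e₀ - B.ctr θ‖ ^ (n + 1)) ^ 2 :=
              pow_le_pow_left₀ (norm_nonneg _) hu 2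
          _ = ‖φ e₀ - B.ctr θ‖ ^ ((n + 1) * 2) := by rw [← pow_mul]
          _ ≤ ‖φ e₀ - B.ctr θ‖ ^ (n + 1 + 1) :=
              pow_le_pow_of_le_one (norm_nonneg _) he₀.le (by omega)
  obtain ⟨n, hn⟩ := exists_pow_lt_of_lt_one (norm_pos_iff.mpr hη0) he₀
  obtain ⟨u, hu⟩ := key n
  refine ⟨u, hu.trans (max_le ?_ le_rfl)⟩
  refine le_trans ?_ hn.le
  exact pow_le_pow_of_le_one (norm_nonneg _) he₀.le (Nat.le_succ n)

end Pool.Agent.SZT.H60
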